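import Pool.Agent.Y883.GJ.Stm

/-!
# Project GJ (helper883), job LIFT: from the modulus `q` to the modulus `r q`
-/

set_option autoImplicit false

namespace Pool.Agent.Y708.GJ

open Finset
open Pool.Agent.H807R2.Dav (ee norm_ee ee_add ee_int)
open Pool.Agent.Y883.GJ

/-- the phase -/
noncomputable def ph (m : ℕ) (h : ℤ) (x : ZMod m) : ℂ := ee ((x.val : ℝ) * ((h : ℝ) / (m : ℕ)))

theorem norm_ph (m : ℕ) (h : ℤ) (x : ZMod m) : ‖ph m h x‖ = 1 := norm_ee _

theorem ph_nat (m : ℕ) [NeZero m] (h : ℤ) (n : ℕ) :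
    ee ((n : ℝ) * ((h : ℝ) / (m : ℕ))) = ph m h (n : ZMod m) := by
  have hm : (m : ℝ) ≠ 0 := by
    have := NeZero.ne m
    exact_mod_cast this
  rw [ph, ZMod.val_natCast]
  have h1 : (n : ℝ) * ((h : ℝ) / (m : ℕ)) =
      ((n % m : ℕ) : ℝ) * ((h : ℝ) / (m : ℕ)) + ((h * ((n / m : ℕ) : ℤ) : ℤ) : ℝ) := by
    have h2 : (n : ℝ) = ((n % m : ℕ) : ℝ) + (m : ℝ) * ((n / m : ℕ) : ℝ) := by
      exact_mod_cast (Nat.mod_add_div n m).symm
    rw [Int.cast_mul, Int.cast_natCast]
    nth_rewrite 1 [h2]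
    field_simp
  rw [h1, ee_add, ee_int, mul_one]

theorem ph_add (m : ℕ) [NeZero m] (h : ℤ) (x y : ZMod m) :
    ph m h (x + y) = ph m h x * ph m h y := by
  have h1 := ph_nat m h (x.val + y.val)
  rw [Nat.cast_add, Nat.cast_add, ZMod.natCast_zmod_val, ZMod.natCast_zmod_val, add_mul,
    ee_add] at h1
  exact h1.symm

theorem cl_phase (m N : ℕ) [NeZero m] (F : ℕ → ℂ) (h : ℤ) (β η : ℝ)
    (hβ : β = h / (m : ℕ) + η) (l : ZMod m) : cl m N F β l = ph m h l * cl m N F η l := by
  rw [cl, cl, Finset.mul_sum]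
  refine Finset.sum_congr rfl fun n hn => ?_
  have hnl : (n : ZMod m) = l := (Finset.mem_filter.1 hn).2
  rw [hβ, mul_add, ee_add, ph_nat, hnl]
  ring

theorem cl_reduce (q r N : ℕ) [NeZero q] [NeZero (r * q)] (F : ℕ → ℂ) (β : ℝ) (l : ZMod q) :
    cl q N F β l = ∑ l' : ZMod (r * q),
      if ZMod.castHom (Dvd.intro_left r rfl : q ∣ r * q) (ZMod q) l' = l then
        cl (r * q) N F β l' else 0 := by
  set φ := ZMod.castHom (Dvd.intro_left r rfl : q ∣ r * q) (ZMod q) with hφ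
  rw [← Finset.sum_filter]
  have h1 := Finset.sum_fiberwise_of_maps_to
    (s := (Icc 1 N).filter (fun n : ℕ => (n : ZMod q) = l))
    (t := univ.filter (fun l' : ZMod (r * q) => φ l' = l))
    (g := fun n : ℕ => (n : ZMod (r * q))) (fun n hn => by
      rw [Finset.mem_filter] at hn ⊢
      refine ⟨Finset.mem_univ _, ?_⟩
      rw [map_natCast]
      exact hn.2) (fun n => F n * ee (n * β))
  rw [cl, ← h1]
  refine Finset.sum_congr rfl fun y hy => ?_
  rw [cl]
  refine Finset.sum_congr ?_ fun _ _ => rfl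
  ext n
  rw [Finset.mem_filter, Finset.mem_filter, Finset.mem_filter]
  constructor
  · rintro ⟨⟨h2, -⟩, h3⟩
    exact ⟨h2, h3⟩
  · rintro ⟨h2, h3⟩
    refine ⟨⟨h2, ?_⟩, h3⟩
    have h4 : φ y = l := (Finset.mem_filter.1 hy).2
    rw [← h4, ← h3, map_natCast]

theorem lift : LiftStm := by
  intro q r N _ _ G F h β η hβ
  refine ⟨fun a => ?_, fun l => ?_⟩
  · set φ := ZMod.castHom (Dvd.intro_left r rfl : q ∣ r * q) (ZMod q) with hφ
    have hval : ∀ a' : ZMod (r * q), ((a'.val : ℕ) : ZMod q) = φ a' := by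
      intro a'
      rw [hφ, ZMod.castHom_apply, ZMod.natCast_val]
    have e1 : ∑ l : ZMod q, cl q N G β l * cl q N F β (a - l) =
        ∑ l₁ : ZMod (r * q), cl (r * q) N G β l₁ * cl q N F β (a - φ l₁) := by
      have h1 : ∀ l : ZMod q, cl q N G β l * cl q N F β (a - l) =
          ∑ l₁ : ZMod (r * q), if φ l₁ = l then
            cl (r * q) N G β l₁ * cl q N F β (a - l) else 0 := by
        intro l
        rw [cl_reduce q r N G β l, Finset.sum_mul]
        refine Finset.sum_congr rfl fun l₁ _ => ?_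
        rw [ite_mul, zero_mul]
      simp_rw [h1]
      rw [Finset.sum_comm]
      refine Finset.sum_congr rfl fun l₁ _ => ?_
      rw [Finset.sum_ite_eq]
      simp
    have e2 : ∀ l₁ : ZMod (r * q), cl q N F β (a - φ l₁) =
        ∑ a' : ZMod (r * q), if φ a' = a then cl (r * q) N F β (a' - l₁) else 0 := by
      intro l₁
      rw [cl_reduce q r N F β]
      symm
      refine Fintype.sum_equiv (Equiv.subRight l₁) _ _ fun a' => ?_
      have h2 : (Equiv.subRight l₁) a' = a' - l₁ := rfl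
      rw [h2]
      have h3 : (φ (a' - l₁) = a - φ l₁) ↔ (φ a' = a) := by
        rw [map_sub, sub_left_inj]
      by_cases h4 : φ a' = a
      · rw [if_pos h4, if_pos (h3.2 h4)]
      · rw [if_neg h4, if_neg fun h5 => h4 (h3.1 h5)]
    have e3 : ∑ l : ZMod q, cl q N G β l * cl q N F β (a - l) =
        ∑ a' ∈ univ.filter (fun a' : ZMod (r * q) => ((a'.val : ℕ) : ZMod q) = a),
          ∑ l₁ : ZMod (r * q), cl (r * q) N G β l₁ * cl (r * q) N F β (a' - l₁) := by
      rw [e1, Finset.sum_filter]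
      simp_rw [e2, Finset.mul_sum]
      rw [Finset.sum_comm]
      refine Finset.sum_congr rfl fun a' _ => ?_
      rw [hval]
      by_cases h4 : φ a' = a
      · simp [h4]
      · simp [h4]
    rw [e3]
    refine (norm_sum_le _ _).trans (Finset.sum_le_sum fun a' _ => le_of_eq ?_)
    have e4 : ∑ l₁ : ZMod (r * q), cl (r * q) N G β l₁ * cl (r * q) N F β (a' - l₁) =
        ph (r * q) h a' * ∑ l₁ : ZMod (r * q), cl (r * q) N G η l₁ * cl (r * q) N F η (a' - l₁) := by
      rw [Finset.mul_sum]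
      refine Finset.sum_congr rfl fun l₁ _ => ?_
      rw [cl_phase (r * q) N G h β η hβ, cl_phase (r * q) N F h β η hβ]
      have h5 : ph (r * q) h a' = ph (r * q) h l₁ * ph (r * q) h (a' - l₁) := by
        rw [← ph_add]
        congr 1
        ring
      rw [h5]
      ring
    rw [e4, norm_mul, norm_ph, one_mul]
  · rw [cl_phase (r * q) N F h β η hβ, norm_mul, norm_ph, one_mul]

end Pool.Agent.Y708.GJ
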